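import Mathlib

set_option autoImplicit false

namespace Pool.Agent.H51

open Polynomial

/-- A unit plus a nilpotent multiple is a unit. -/
theorem isUnit_add_smul {R A : Type} [CommRing R] [Ring A] [Algebra R A] {q : R} {N : ℕ}
    (hq : q ^ N = 0) {u w : A} (hu : IsUnit u) : IsUnit (u + q • w) := by
  obtain ⟨v, rfl⟩ := hu
  have h1 : (v : A) + q • w = v * (1 + q • (↑v⁻¹ * w)) := by
    rw [mul_add, mul_one, mul_smul_comm, ← mul_assoc, Units.mul_inv, one_mul]
  rw [h1]
  refine IsUnit.mul v.isUnit ?_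
  apply IsNilpotent.isUnit_one_add
  refine ⟨N, ?_⟩
  rw [_root_.smul_pow, hq, zero_smul]

theorem dvd_of_castHom_eq_zero (p : ℕ) [hp : Fact p.Prime] (N : ℕ) (hN : 1 ≤ N)
    (a : ZMod (p ^ N)) (ha : ZMod.castHom (dvd_pow_self p (by omega : N ≠ 0)) (ZMod p) a = 0) :
    (p : ZMod (p ^ N)) ∣ a := by
  have hne : NeZero (p ^ N) := ⟨pow_ne_zero _ hp.out.ne_zero⟩
  have h1 : a = ((a.val : ℕ) : ZMod (p ^ N)) := (ZMod.natCast_zmod_val a).symm
  rw [h1, map_natCast, ZMod.natCast_eq_zero_iff] at ha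
  rw [h1]
  exact Nat.cast_dvd_cast ha

theorem natCast_pow_eq_zero (p N : ℕ) : (p : ZMod (p ^ N)) ^ N = 0 := by
  rw [← Nat.cast_pow]; exact ZMod.natCast_self _

theorem exists_big_ring (p : ℕ) [hp : Fact p.Prime] (N : ℕ) (hN : 1 ≤ N) (D : ℕ) :
    ∃ (O : Type) (_ : CommRing O) (_ : Algebra (ZMod (p ^ N)) O) (F : Type) (_ : Field F)
      (_ : Algebra (ZMod p) F) (ε : O →+* F) (t : O),
      Module.Free (ZMod (p ^ N)) O ∧ Module.Finite (ZMod (p ^ N)) O ∧
      (∀ x, ε x ≠ 0 → IsUnit x) ∧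
      (∀ Q : (ZMod p)[X], Q ≠ 0 → Q.natDegree < D → aeval (ε t) Q ≠ 0) := by
  have hdvd : p ∣ p ^ N := dvd_pow_self p (by omega)
  have hne : NeZero (p ^ N) := ⟨pow_ne_zero _ hp.out.ne_zero⟩
  let φ : ZMod (p ^ N) →+* ZMod p := ZMod.castHom hdvd (ZMod p)
  have hφs : Function.Surjective φ := ZMod.castHom_surjective hdvd
  let F := GaloisField p (D + 1)
  obtain ⟨τ, hτ⟩ := Field.exists_primitive_element (ZMod p) F
  have hdeg : (minpoly (ZMod p) τ).natDegree = D + 1 := by
    rw [(Field.primitive_element_iff_minpoly_natDegree_eq (ZMod p) τ).mp hτ]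
    exact GaloisField.finrank p (by omega)
  have hint : IsIntegral (ZMod p) τ := IsIntegral.of_finite _ _
  obtain ⟨f, hf, hfdeg, hfmonic⟩ := lifts_and_natDegree_eq_and_monic (f := φ)
    (p := minpoly (ZMod p) τ) (by
      rw [mem_lifts]
      exact map_surjective φ hφs _) (minpoly.monic hint)
  let ψ : ZMod (p ^ N) →+* F := (algebraMap (ZMod p) F).comp φ
  have hroot : f.eval₂ ψ τ = 0 := by
    rw [← eval₂_map, hf]
    exact minpoly.aeval (ZMod p) τ
  let ε : AdjoinRoot f →+* F := AdjoinRoot.lift ψ τ hroot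
  refine ⟨AdjoinRoot f, inferInstance, inferInstance, F, inferInstance, inferInstance, ε,
    AdjoinRoot.root f, hfmonic.free_adjoinRoot, hfmonic.finite_adjoinRoot, ?_, ?_⟩
  · intro x hx
    obtain ⟨h, rfl⟩ := AdjoinRoot.mk_surjective x
    have h1 : aeval τ (h.map φ) ≠ 0 := by
      have : ε (AdjoinRoot.mk f h) = aeval τ (h.map φ) := by
        simp only [ε, AdjoinRoot.lift_mk]
        rw [aeval_def, eval₂_map]
      rwa [this] at hx
    have hirr : Irreducible (minpoly (ZMod p) τ) := minpoly.irreducible hint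
    have hcop : IsCoprime (minpoly (ZMod p) τ) (h.map φ) := by
      rw [hirr.coprime_iff_not_dvd]
      intro hd
      exact h1 ((minpoly.dvd_iff).mp hd)
    obtain ⟨a, b, hab⟩ := hcop
    obtain ⟨a', ha'⟩ := map_surjective φ hφs a
    obtain ⟨b', hb'⟩ := map_surjective φ hφs b
    have h2 : (a' * f + b' * h - 1).map φ = 0 := by
      simp only [Polynomial.map_sub, Polynomial.map_add, Polynomial.map_mul, Polynomial.map_one,
        ha', hb', hf, hab, sub_self]
    have h3 : C (p : ZMod (p ^ N)) ∣ (a' * f + b' * h - 1) := by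
      rw [C_dvd_iff_dvd_coeff]
      intro i
      apply dvd_of_castHom_eq_zero p N hN
      have := congrArg (fun P => coeff P i) h2
      simpa only [coeff_map, coeff_zero] using this
    obtain ⟨c, hc⟩ := h3
    have h4 : AdjoinRoot.mk f b' * AdjoinRoot.mk f h = 1 +
        (p : ZMod (p ^ N)) • AdjoinRoot.mk f c := by
      have h5 := congrArg (AdjoinRoot.mk f) hc
      simp only [map_sub, map_add, map_mul, AdjoinRoot.mk_self, mul_zero, zero_add, map_one] at h5
      rw [Algebra.smul_def, sub_eq_iff_eq_add'] at *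
      exact h5
    have h6 : IsUnit (AdjoinRoot.mk f b' * AdjoinRoot.mk f h) := by
      rw [h4]
      exact isUnit_add_smul (natCast_pow_eq_zero p N) isUnit_one
    exact isUnit_of_mul_isUnit_right h6
  · intro Q hQ hQd
    have : ε (AdjoinRoot.root f) = τ := by simp [ε]
    rw [this]
    intro h
    have h1 := natDegree_le_of_dvd (minpoly.dvd _ _ h) hQ
    omega

end Pool.Agent.H51
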