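import Mathlib

set_option autoImplicit false

namespace Pool.Agent.H51

open Module CategoryTheory

/-- A nonzero invariant subspace of a simple representation is everything. -/
theorem simple_submodule_eq_top {G : Type} [Group G] (V : FDRep ℂ G)
    (hV : CategoryTheory.Simple V) (U : Submodule ℂ V)
    (hU : ∀ g : G, ∀ u ∈ U, V.ρ g u ∈ U) (hne : U ≠ ⊥) : U = ⊤ := by
  classical
  let ρU : Representation ℂ G U :=
    { toFun := fun g => (V.ρ g).restrict (hU g)
      map_one' := by
        ext u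
        simp
      map_mul' := by
        intro g h
        ext u
        simp }
  let W : FDRep ℂ G := FDRep.of ρU
  let f : W ⟶ V :=
    { hom := CategoryTheory.InducedCategory.homMk (ModuleCat.ofHom U.subtype)
      comm := by
        intro g
        ext u
        rfl }
  have hfapp : ∀ u : U, f.hom.hom.hom u = (u : V) := fun u => rfl
  have hmono : CategoryTheory.Mono f := by
    apply CategoryTheory.ConcreteCategory.mono_of_injective
    intro a b hab
    exact Subtype.ext hab
  have hfne : f ≠ 0 := by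
    intro h0
    apply hne
    rw [Submodule.eq_bot_iff]
    intro u hu
    have h1 := hfapp ⟨u, hu⟩
    rw [h0] at h1
    exact h1.symm
  have hiso : CategoryTheory.IsIso f := CategoryTheory.isIso_of_mono_of_nonzero hfne
  rw [eq_top_iff]
  intro v _
  have hi : CategoryTheory.CategoryStruct.comp (CategoryTheory.inv f) f =
      CategoryTheory.CategoryStruct.id V := CategoryTheory.IsIso.inv_hom_id f
  have h2 : f.hom.hom.hom ((CategoryTheory.inv f).hom.hom.hom v) = v := by
    have h3 := congrArg (fun k : V ⟶ V => k.hom.hom.hom v) hi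
    exact h3
  rw [hfapp] at h2
  rw [← h2]
  exact Subtype.property _

open Classical in
/-- Summation over a group through left cosets. -/
theorem sum_cosets {G : Type} [Group G] [Fintype G] (N : Subgroup G) (F : G → ℂ)
    (hF : ∀ (x : G) (n : N), F (x * n) = F x) :
    ∑ x : G, F x = (Nat.card N : ℂ) * ∑ q : G ⧸ N, F q.out := by
  classical
  have hbij : Function.Bijective (fun p : (G ⧸ N) × N => p.1.out * (p.2 : G)) := by
    constructor
    · rintro ⟨q, n⟩ ⟨q', n'⟩ h
      simp only at h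
      have hq : q = q' := by
        have h1 : (QuotientGroup.mk (q.out * (n : G)) : G ⧸ N) =
          QuotientGroup.mk (q'.out * (n' : G)) := by rw [h]
        rw [QuotientGroup.mk_mul_of_mem _ n.2, QuotientGroup.mk_mul_of_mem _ n'.2] at h1
        simpa using h1
      subst hq
      simp only [mul_right_inj] at h
      exact Prod.ext rfl (Subtype.ext h)
    · intro x
      refine ⟨(QuotientGroup.mk x, ⟨(QuotientGroup.mk x : G ⧸ N).out⁻¹ * x, ?_⟩), by simp⟩
      rw [← QuotientGroup.eq]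
      simp
  have h1 : ∑ p : (G ⧸ N) × N, F (p.1.out * (p.2 : G)) = ∑ x : G, F x :=
    Fintype.sum_bijective _ hbij _ _ (fun _ => rfl)
  rw [← h1, Fintype.sum_prod_type]
  simp only [hF, Finset.sum_const, Finset.card_univ, nsmul_eq_mul]
  rw [Finset.mul_sum, Nat.card_eq_fintype_card]

open Classical in
/-- The character of a representation containing an eigenvector for a linear character `lam` of a
normal subgroup `N` whose stabiliser is exactly `N`. -/
theorem character_formula {G : Type} [Group G] [Fintype G] (V : FDRep ℂ G)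
    (hV : CategoryTheory.Simple V) (N : Subgroup G) (hN : N.Normal) (lam : N →* ℂˣ)
    (v : V) (hv : v ≠ 0) (heig : ∀ n : N, V.ρ n v = ((lam n : ℂˣ) : ℂ) • v)
    (hstab : ∀ g : G, (∀ n : N, lam ⟨g * n * g⁻¹, hN.conj_mem n n.2 g⟩ = lam n) → g ∈ N)
    (g : G) : V.character g = (Nat.card N : ℂ)⁻¹ *
      ∑ x : G, (if h : x * g * x⁻¹ ∈ N then ((lam ⟨x * g * x⁻¹, h⟩ : ℂˣ) : ℂ) else 0) := by
  classical
  -- the vectors `ρ x v`
  have hρmul : ∀ (a b : G) (w : V), V.ρ a (V.ρ b w) = V.ρ (a * b) w := by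
    intro a b w
    rw [map_mul]; rfl
  have hρone : ∀ (w : V), V.ρ 1 w = w := by
    intro w
    rw [map_one]; rfl
  have hρne : ∀ (x : G), V.ρ x v ≠ 0 := by
    intro x h
    apply hv
    have := congrArg (V.ρ x⁻¹) h
    rw [hρmul, map_zero, inv_mul_cancel, hρone] at this
    exact this
  -- conjugated characters
  let chi : G → (N →* ℂ) := fun x =>
    { toFun := fun n => ((lam ⟨x⁻¹ * n * x⁻¹⁻¹, hN.conj_mem n n.2 x⁻¹⟩ : ℂˣ) : ℂ)
      map_one' := by
        have : (⟨x⁻¹ * ((1 : N) : G) * x⁻¹⁻¹, hN.conj_mem _ (1 : N).2 x⁻¹⟩ : N) = 1 := by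
          apply Subtype.ext; simp
        rw [this]; simp
      map_mul' := by
        intro a b
        have : (⟨x⁻¹ * ((a * b : N) : G) * x⁻¹⁻¹, hN.conj_mem _ (a * b : N).2 x⁻¹⟩ : N) =
          ⟨x⁻¹ * (a : G) * x⁻¹⁻¹, hN.conj_mem _ a.2 x⁻¹⟩ *
          ⟨x⁻¹ * (b : G) * x⁻¹⁻¹, hN.conj_mem _ b.2 x⁻¹⟩ := by
          apply Subtype.ext; simp [mul_assoc]
        rw [this, map_mul, Units.val_mul] }
  have hchi_apply : ∀ (x : G) (n : N),
      chi x n = ((lam ⟨x⁻¹ * n * x⁻¹⁻¹, hN.conj_mem n n.2 x⁻¹⟩ : ℂˣ) : ℂ) := fun _ _ => rfl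
  have heigx : ∀ (x : G) (n : N), V.ρ n (V.ρ x v) = chi x n • V.ρ x v := by
    intro x n
    rw [hchi_apply]
    have h1 : V.ρ n (V.ρ x v) = V.ρ x (V.ρ (x⁻¹ * n * x⁻¹⁻¹) v) := by
      rw [hρmul, hρmul]
      congr 2
      group
    rw [h1]
    have h2 := heig ⟨x⁻¹ * n * x⁻¹⁻¹, hN.conj_mem n n.2 x⁻¹⟩
    simp only at h2
    rw [h2, map_smul]
  -- the vectors depend only on the coset up to scalars
  have hcos : ∀ (x : G) (n : N), V.ρ (x * n) v = ((lam n : ℂˣ) : ℂ) • V.ρ x v := by
    intro x n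
    rw [← hρmul, heig, map_smul]
  have hchiinj : Function.Injective (fun q : G ⧸ N => chi q.out) := by
    intro q q' h
    simp only at h
    have h1 : q.out⁻¹ * q'.out ∈ N := by
      apply hstab
      intro n
      -- apply equality at element q'.out * n * q'.out⁻¹
      have h2 := DFunLike.congr_fun h ⟨q'.out * n * q'.out⁻¹, hN.conj_mem n n.2 _⟩
      rw [hchi_apply, hchi_apply] at h2
      have h3 := Units.ext h2
      have e1 : (⟨q.out⁻¹ * ((⟨q'.out * n * q'.out⁻¹, hN.conj_mem n n.2 _⟩ : N) : G) * q.out⁻¹⁻¹,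
          hN.conj_mem _ (⟨q'.out * n * q'.out⁻¹, hN.conj_mem n n.2 _⟩ : N).2 q.out⁻¹⟩ : N) =
          ⟨q.out⁻¹ * q'.out * n * (q.out⁻¹ * q'.out)⁻¹, hN.conj_mem n n.2 _⟩ := by
        apply Subtype.ext
        simp only
        group
      have e2 : (⟨q'.out⁻¹ * ((⟨q'.out * n * q'.out⁻¹, hN.conj_mem n n.2 _⟩ : N) : G) * q'.out⁻¹⁻¹,
          hN.conj_mem _ (⟨q'.out * n * q'.out⁻¹, hN.conj_mem n n.2 _⟩ : N).2 q'.out⁻¹⟩ : N) =
          n := by
        apply Subtype.ext
        simp only
        group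
      rw [e1, e2] at h3
      exact h3
    rw [← QuotientGroup.eq] at h1
    simpa using h1
  let b : G ⧸ N → V := fun q => V.ρ q.out v
  have hli : LinearIndependent ℂ b := by
    rw [Fintype.linearIndependent_iff]
    intro c hc q
    have hD : LinearIndependent ℂ (fun q : G ⧸ N => ((chi q.out : N →* ℂ) : N → ℂ)) :=
      (linearIndependent_monoidHom N ℂ).comp (fun q : G ⧸ N => chi q.out) hchiinj
    rw [Fintype.linearIndependent_iff] at hD
    by_contra hcq
    apply hρne q.out
    rw [← Module.forall_dual_apply_eq_zero_iff ℂ]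
    intro φ
    have h1 := hD (fun q => c q * φ (b q)) (by
      funext n
      simp only [Finset.sum_apply, Pi.smul_apply, smul_eq_mul, Pi.zero_apply]
      have h2 := congrArg (fun w => φ (V.ρ n w)) hc
      simp only [map_sum, map_smul, map_zero] at h2
      rw [← h2]
      apply Finset.sum_congr rfl
      intro q' _
      rw [show b q' = V.ρ q'.out v from rfl, heigx, map_smul]
      simp only [smul_eq_mul]
      ring) q
    rcases mul_eq_zero.mp h1 with h | h
    · exact absurd h hcq
    · exact h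
  have hinv : ∀ (g : G) (w : V), w ∈ Submodule.span ℂ (Set.range b) →
      V.ρ g w ∈ Submodule.span ℂ (Set.range b) := by
    intro g w hw
    induction hw using Submodule.span_induction with
    | mem w hw =>
      obtain ⟨q, rfl⟩ := hw
      have h1 : (QuotientGroup.mk (g * q.out) : G ⧸ N).out⁻¹ * (g * q.out) ∈ N := by
        rw [← QuotientGroup.eq]
        simp
      have h2 : V.ρ g (b q) = ((lam ⟨_, h1⟩ : ℂˣ) : ℂ) •
          b (QuotientGroup.mk (g * q.out) : G ⧸ N) := by
        rw [show b q = V.ρ q.out v from rfl, hρmul,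
          show b (QuotientGroup.mk (g * q.out) : G ⧸ N) =
            V.ρ (QuotientGroup.mk (g * q.out) : G ⧸ N).out v from rfl, ← hcos]
        congr 2
        simp only
        group
      rw [h2]
      exact Submodule.smul_mem _ _ (Submodule.subset_span ⟨_, rfl⟩)
    | zero => rw [map_zero]; exact Submodule.zero_mem _
    | add x y _ _ hx hy => rw [map_add]; exact Submodule.add_mem _ hx hy
    | smul a x _ hx => rw [map_smul]; exact Submodule.smul_mem _ _ hx
  have hspan : Submodule.span ℂ (Set.range b) = ⊤ := by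
    apply simple_submodule_eq_top V hV _ hinv
    intro h
    have h1 : b (QuotientGroup.mk 1) ∈ Submodule.span ℂ (Set.range b) :=
      Submodule.subset_span ⟨_, rfl⟩
    rw [h, Submodule.mem_bot] at h1
    exact hρne _ h1
  let B : Basis (G ⧸ N) ℂ V := Basis.mk hli (le_of_eq hspan.symm)
  have hB : ∀ q, B q = V.ρ q.out v := by
    intro q
    simp [B, b]
  let F : G → ℂ := fun x => if h : x⁻¹ * g * x⁻¹⁻¹ ∈ N then
    ((lam ⟨x⁻¹ * g * x⁻¹⁻¹, h⟩ : ℂˣ) : ℂ) else 0
  have htr : V.character g = ∑ q : G ⧸ N, F q.out := by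
    have h0 : V.character g = LinearMap.trace ℂ V (V.ρ g) := rfl
    rw [h0, LinearMap.trace_eq_matrix_trace ℂ B, Matrix.trace]
    apply Finset.sum_congr rfl
    intro q _
    rw [Matrix.diag_apply, LinearMap.toMatrix_apply, hB, hρmul]
    by_cases hg : q.out⁻¹ * g * q.out⁻¹⁻¹ ∈ N
    · have h1 : V.ρ (g * q.out) v = ((lam ⟨_, hg⟩ : ℂˣ) : ℂ) • B q := by
        rw [hB, ← hcos]
        congr 2
        simp only
        group
      have hF0 : F q.out = ((lam ⟨_, hg⟩ : ℂˣ) : ℂ) := dif_pos hg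
      rw [h1, map_smul, hF0]
      simp
    · have h1 : (QuotientGroup.mk (g * q.out) : G ⧸ N).out⁻¹ * (g * q.out) ∈ N := by
        rw [← QuotientGroup.eq]
        simp
      have h2 : V.ρ (g * q.out) v = ((lam ⟨_, h1⟩ : ℂˣ) : ℂ) •
          B (QuotientGroup.mk (g * q.out) : G ⧸ N) := by
        rw [hB, ← hcos]
        congr 2
        simp only
        group
      have hne : (QuotientGroup.mk (g * q.out) : G ⧸ N) ≠ q := by
        intro he
        apply hg
        have h3 : (QuotientGroup.mk q.out : G ⧸ N) = QuotientGroup.mk (g * q.out) := by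
          rw [he]; simp
        rw [QuotientGroup.eq] at h3
        simpa [mul_assoc] using h3
      have hF0 : F q.out = 0 := dif_neg hg
      rw [h2, map_smul, hF0, Basis.repr_self, Finsupp.smul_apply, Finsupp.single_apply,
        if_neg hne, smul_zero]
  have hFN : ∀ (x : G) (n : N), F (x * n) = F x := by
    intro x n
    have hiff : (x * n)⁻¹ * g * (x * n)⁻¹⁻¹ ∈ N ↔ x⁻¹ * g * x⁻¹⁻¹ ∈ N := by
      constructor
      · intro h
        have h1 := hN.conj_mem _ h (n : G)
        have e : (n : G) * ((x * n)⁻¹ * g * (x * n)⁻¹⁻¹) * (n : G)⁻¹ = x⁻¹ * g * x⁻¹⁻¹ := by group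
        rwa [e] at h1
      · intro h
        have h1 := hN.conj_mem _ h (n : G)⁻¹
        have e : (n : G)⁻¹ * (x⁻¹ * g * x⁻¹⁻¹) * (n : G)⁻¹⁻¹ = (x * n)⁻¹ * g * (x * n)⁻¹⁻¹ := by
          group
        rwa [e] at h1
    simp only [F]
    by_cases h : x⁻¹ * g * x⁻¹⁻¹ ∈ N
    · have h' := hiff.mpr h
      rw [dif_pos h, dif_pos h']
      have e : (⟨(x * n)⁻¹ * g * (x * n)⁻¹⁻¹, h'⟩ : N) = n⁻¹ * ⟨x⁻¹ * g * x⁻¹⁻¹, h⟩ * n := by
        apply Subtype.ext
        simp only [Subgroup.coe_mul, Subgroup.coe_inv]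
        group
      rw [e, map_mul, map_mul, map_inv]
      congr 1
      rw [mul_comm (lam n)⁻¹, inv_mul_cancel_right]
    · have h' : ¬ ((x * n)⁻¹ * g * (x * n)⁻¹⁻¹ ∈ N) := fun hh => h (hiff.mp hh)
      rw [dif_neg h, dif_neg h']
  have hcard : (Nat.card N : ℂ) ≠ 0 := by
    have : Nat.card N ≠ 0 := Nat.card_pos.ne'
    exact_mod_cast this
  rw [htr]
  have hsum := sum_cosets N F hFN
  have hre : ∑ x : G, F x = ∑ x : G,
      (if h : x * g * x⁻¹ ∈ N then ((lam ⟨x * g * x⁻¹, h⟩ : ℂˣ) : ℂ) else 0) := by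
    apply Fintype.sum_bijective (fun x : G => x⁻¹) (Equiv.inv G).bijective
    intro x
    rfl
  rw [← hre, hsum, ← mul_assoc, inv_mul_cancel₀ hcard, one_mul]

end Pool.Agent.H51
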