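import Pool.Agent.H51.SymRing
import Pool.Agent.H51.Exp

set_option autoImplicit false

namespace Pool.Agent.H51

open Module Polynomial TensorProduct

/-- If every value of an endomorphism of a free module is divisible by `a`, then so is the
endomorphism. -/
theorem exists_smul_end {R M : Type} [CommRing R] [AddCommGroup M] [Module R M] [Module.Free R M]
    (a : R) (T : Module.End R M) (h : ∀ m, ∃ y, T m = a • y) : ∃ Y : Module.End R M, T = a • Y := by
  classical
  choose f hf using h
  let b := Module.Free.chooseBasis R M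
  refine ⟨b.constr R (fun i => f (b i)), ?_⟩
  apply b.ext
  intro i
  rw [hf, LinearMap.smul_apply, Basis.constr_basis]

theorem isUnit_tensor {R S V : Type} [CommRing R] [Nontrivial R] [CommRing S] [Algebra R S]
    [AddCommGroup V] [Module R V] [Module.Free R V] [Module.Finite R V]
    [Finite (S ⊗[R] V)] (s : S) (X : Module.End R V)
    (h : ∀ χ : R[X], χ.Monic → χ.natDegree = finrank R V → IsUnit (aeval s χ)) :
    IsUnit (Module.End.rTensorAlgHom R S V (Algebra.lmul R S s) +
      Module.End.lTensorAlgHom R V S X) := by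
  let α : S →ₐ[R] Module.End R (S ⊗[R] V) :=
    (Module.End.rTensorAlgHom R S V).comp (Algebra.lmul R S)
  let β : Module.End R V →ₐ[R] Module.End R (S ⊗[R] V) := Module.End.lTensorAlgHom R V S
  have hcomm : ∀ (x : S) (f : Module.End R V), α x * β f = β f * α x := by
    intro x f
    change (LinearMap.rTensor V (Algebra.lmul R S x)) ∘ₗ (LinearMap.lTensor S f) =
      (LinearMap.lTensor S f) ∘ₗ (LinearMap.rTensor V (Algebra.lmul R S x))
    rw [LinearMap.rTensor_comp_lTensor, LinearMap.lTensor_comp_rTensor]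
  change IsUnit (α s + β X)
  have hinj : Function.Injective (α s + β X) := by
    rw [injective_iff_map_eq_zero]
    intro v hv
    have h1 : α s v = β (-X) v := by
      rw [map_neg, LinearMap.neg_apply]
      rw [LinearMap.add_apply] at hv
      exact eq_neg_of_add_eq_zero_left hv
    have h2 : ∀ k : ℕ, (α s ^ k) v = (β (-X) ^ k) v := by
      intro k
      induction k with
      | zero => rfl
      | succ k ih =>
        rw [pow_succ', Module.End.mul_apply, ih, ← Module.End.mul_apply]
        have h3 : α s * β (-X) ^ k = β (-X) ^ k * α s := by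
          rw [← map_pow, hcomm]
        rw [h3, Module.End.mul_apply, h1, ← Module.End.mul_apply, ← pow_succ]
    have h3 : ∀ χ : R[X], (aeval (α s) χ) v = (aeval (β (-X)) χ) v := by
      intro χ
      induction χ using Polynomial.induction_on' with
      | add p q hp hq => rw [map_add, map_add, LinearMap.add_apply, LinearMap.add_apply, hp, hq]
      | monomial n a =>
        rw [aeval_monomial, aeval_monomial, Module.End.mul_apply, Module.End.mul_apply, h2]
    have h4 := h3 (LinearMap.charpoly (-X))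
    rw [aeval_algHom_apply, aeval_algHom_apply, LinearMap.aeval_self_charpoly, map_zero,
      LinearMap.zero_apply] at h4
    have h5 := h _ (LinearMap.charpoly_monic (-X)) (LinearMap.charpoly_natDegree (-X))
    obtain ⟨u, hu⟩ := h5.map α
    rw [← hu] at h4
    have h6 : ((↑u⁻¹ : Module.End R (S ⊗[R] V)) * u) v = 0 := by
      rw [Module.End.mul_apply, h4, map_zero]
    rw [Units.inv_mul] at h6
    exact h6
  rw [Module.End.isUnit_iff]
  exact Finite.injective_iff_bijective.mp hinj

theorem one_add_mul {R A : Type} [CommRing R] [Ring A] [Algebra R A] (a q a' : R)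
    (ha : a = q * a') (X Y Z : A) : ∃ T : A,
      (1 + a • X) * (1 + (a * q) • Y) * (1 + a • Z) = 1 + a • (X + Z + q • T) := by
  refine ⟨Y + a • (X * Y) + a' • (X * Z) + a • (Y * Z) + (a * a) • (X * Y * Z), ?_⟩
  subst ha
  simp only [mul_add, add_mul, mul_one, one_mul, smul_add, smul_smul, smul_mul_assoc,
    mul_smul_comm]
  module

theorem mod_step (p : ℕ) [hp : Fact p.Prime] (hp3 : 3 ≤ p) (N : ℕ) (hN : 1 ≤ N) {G V' V : Type}
    [Group G] [AddCommGroup V'] [Module (ZMod (p ^ N)) V'] [Module.Free (ZMod (p ^ N)) V']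
    [Module.Finite (ZMod (p ^ N)) V'] [AddCommGroup V] [Module (ZMod (p ^ N)) V]
    [Module.Free (ZMod (p ^ N)) V] [Module.Finite (ZMod (p ^ N)) V] [Nontrivial V]
    (L : ℕ → Subgroup G) (hL0 : L 0 = ⊤) (c c' : ℕ) (hc : 1 ≤ c) (hcc' : c < c')
    (ρ' : G →* Module.End (ZMod (p ^ N)) V') (hg' : GoodAct L (p : ZMod (p ^ N)) c' ρ')
    (ρ : G →* Module.End (ZMod (p ^ N)) V) (hg : GoodAct L (p : ZMod (p ^ N)) c ρ) :
    ∃ (W : Type) (_ : AddCommGroup W) (_ : Module (ZMod (p ^ N)) W),
      Module.Free (ZMod (p ^ N)) W ∧ Module.Finite (ZMod (p ^ N)) W ∧ Nontrivial W ∧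
      ∃ ρW : SD ρ' →* Module.End (ZMod (p ^ N)) W,
        GoodAct (LSD ρ' L (p : ZMod (p ^ N))) (p : ZMod (p ^ N)) c ρW := by
  classical
  have hne : NeZero (p ^ N) := ⟨pow_ne_zero _ hp.out.ne_zero⟩
  have hK : 1 < p ^ N := Nat.one_lt_pow (by omega) hp.out.one_lt
  have hntΛ : Nontrivial (ZMod (p ^ N)) := by
    have : Fact (1 < p ^ N) := ⟨hK⟩
    infer_instance
  obtain ⟨S, _, _, hSfree, hSfin, hSnt, J, θ, hθJ, hθlev, hunit⟩ :=
    exists_sym_ring p N hN L hL0 c' (by omega) ρ' hg' (finrank (ZMod (p ^ N)) V)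
  obtain ⟨E, hEadd, hEmap, hElev⟩ := exists_exp p hp3 N
  set Λ := ZMod (p ^ N) with hΛ
  have hqN : (p : Λ) ^ N = 0 := natCast_pow_eq_zero p N
  let W := S ⊗[Λ] V
  have hWfree : Module.Free Λ W := inferInstance
  have hWfin : Module.Finite Λ W := inferInstance
  have hWfinite : Finite W := Module.finite_of_finite Λ
  have hWnt : Nontrivial W := by
    rw [← Module.finrank_pos_iff_of_free (R := Λ)]
    simp only [W]
    rw [Module.finrank_tensorProduct]
    exact Nat.mul_pos ((Module.finrank_pos_iff_of_free Λ _).mpr hSnt)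
      ((Module.finrank_pos_iff_of_free Λ _).mpr inferInstance)
  let α : S →ₐ[Λ] Module.End Λ W :=
    (Module.End.rTensorAlgHom Λ S V).comp (Algebra.lmul Λ S)
  let rT : Module.End Λ S →ₐ[Λ] Module.End Λ W := Module.End.rTensorAlgHom Λ S V
  let β : Module.End Λ V →ₐ[Λ] Module.End Λ W := Module.End.lTensorAlgHom Λ V S
  have hcomm : ∀ (x : Module.End Λ S) (f : Module.End Λ V), rT x * β f = β f * rT x := by
    intro x f
    change (LinearMap.rTensor V x) ∘ₗ (LinearMap.lTensor S f) =
      (LinearMap.lTensor S f) ∘ₗ (LinearMap.rTensor V x)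
    rw [LinearMap.rTensor_comp_lTensor, LinearMap.lTensor_comp_rTensor]
  have hαrT : ∀ s, α s = rT (Algebra.lmul Λ S s) := fun s => rfl
  let θe : G → Module.End Λ S := fun g => (θ g).toLinearMap
  have hθe_one : θe 1 = 1 := by
    simp only [θe]
    rw [map_one]; rfl
  have hθe_mul : ∀ g h, θe (g * h) = θe g * θe h := by
    intro g h
    simp only [θe]
    rw [map_mul]; rfl
  have hθe_lmul : ∀ g s, θe g * Algebra.lmul Λ S s = Algebra.lmul Λ S (θ g s) * θe g := by
    intro g s
    ext x
    change θ g (s * x) = θ g s * θ g x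
    rw [map_mul]
  let e : V' → S := fun x => E ((p : Λ) ^ (c - 1) • J x)
  have he_add : ∀ x y, e (x + y) = e x * e y := by
    intro x y
    simp only [e]
    rw [map_add, smul_add, hEadd]
  have he_θ : ∀ g x, θ g (e x) = e (ρ' g x) := by
    intro g x
    simp only [e]
    rw [hEmap, map_smul, hθJ]
  have he_zero : e 0 = 1 := by
    obtain ⟨z, hz⟩ := hElev S N (0 : S)
    simp only [e]
    rw [map_zero, smul_zero]
    rw [smul_zero, pow_succ, hqN, zero_mul, zero_smul, add_zero] at hz
    exact hz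
  have he_lev : ∀ k y, ∃ z, e ((p : Λ) ^ k • y) = 1 + (p : Λ) ^ (k + c) • (J y + (p : Λ) • z) := by
    intro k y
    obtain ⟨z, hz⟩ := hElev S (c - 1 + k) (J y)
    refine ⟨z, ?_⟩
    simp only [e]
    rw [map_smul, smul_smul, ← pow_add, hz]
    congr 3
    omega
  let ρW : SD ρ' →* Module.End Λ W :=
    { toFun := fun x => rT (Algebra.lmul Λ S (e x.l)) * rT (θe x.r) * β (ρ x.r)
      map_one' := by
        rw [SD.one_l, SD.one_r, he_zero, hθe_one]
        simp only [map_one, mul_one]
      map_mul' := by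
        intro x y
        rw [SD.mul_l, SD.mul_r, he_add, ← he_θ, hθe_mul, map_mul, map_mul, map_mul, map_mul,
          map_mul]
        have h1 : rT (Algebra.lmul Λ S (θ x.r (e y.l))) * rT (θe x.r) =
            rT (θe x.r) * rT (Algebra.lmul Λ S (e y.l)) := by
          rw [← map_mul, ← map_mul, hθe_lmul]
        calc rT (Algebra.lmul Λ S (e x.l)) * rT (Algebra.lmul Λ S (θ x.r (e y.l))) *
              (rT (θe x.r) * rT (θe y.r)) * (β (ρ x.r) * β (ρ y.r))
            = rT (Algebra.lmul Λ S (e x.l)) * (rT (Algebra.lmul Λ S (θ x.r (e y.l))) *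
              rT (θe x.r)) * (rT (θe y.r) * β (ρ x.r)) * β (ρ y.r) := by
                simp only [mul_assoc]
          _ = rT (Algebra.lmul Λ S (e x.l)) * (rT (θe x.r) * rT (Algebra.lmul Λ S (e y.l))) *
              (β (ρ x.r) * rT (θe y.r)) * β (ρ y.r) := by rw [h1, hcomm]
          _ = rT (Algebra.lmul Λ S (e x.l)) * rT (θe x.r) * (rT (Algebra.lmul Λ S (e y.l)) *
              β (ρ x.r)) * rT (θe y.r) * β (ρ y.r) := by simp only [mul_assoc]
          _ = rT (Algebra.lmul Λ S (e x.l)) * rT (θe x.r) * (β (ρ x.r) *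
              rT (Algebra.lmul Λ S (e y.l))) * rT (θe y.r) * β (ρ y.r) := by rw [hcomm]
          _ = _ := by simp only [mul_assoc] }
  have hρW : ∀ x, ρW x = rT (Algebra.lmul Λ S (e x.l)) * rT (θe x.r) * β (ρ x.r) := fun _ => rfl
  refine ⟨W, inferInstance, inferInstance, hWfree, hWfin, hWnt, ρW, ?_⟩
  intro k x hx
  obtain ⟨⟨y, hy⟩, hxr⟩ := hx
  obtain ⟨z, hz⟩ := he_lev k y
  obtain ⟨X, hX, hXu⟩ := hg k x.r hxr
  obtain ⟨Y, hY⟩ := exists_smul_end ((p : Λ) ^ (k + c')) (θe x.r - 1) (by
    intro m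
    obtain ⟨m', hm'⟩ := hθlev k x.r hxr m
    refine ⟨m', ?_⟩
    change θ x.r m - m = _
    rw [hm', add_sub_cancel_left])
  have hA : rT (Algebra.lmul Λ S (e x.l)) =
      1 + (p : Λ) ^ (k + c) • (α (J y) + (p : Λ) • α z) := by
    rw [hy, hz, ← hαrT, map_add, map_one, map_smul, map_add, map_smul]
  have hB : rT (θe x.r) = 1 + ((p : Λ) ^ (k + c) * p) • (rT ((p : Λ) ^ (c' - c - 1) • Y)) := by
    have h1 : θe x.r = 1 + (p : Λ) ^ (k + c') • Y := by
      rw [← hY]; abel
    rw [h1, map_add, map_one, map_smul, map_smul, smul_smul, ← pow_succ, ← pow_add]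
    congr 3
    omega
  have hD : β (ρ x.r) = 1 + (p : Λ) ^ (k + c) • β X := by
    rw [hX, map_add, map_one, map_smul]
  obtain ⟨T, hT⟩ := one_add_mul ((p : Λ) ^ (k + c)) (p : Λ) ((p : Λ) ^ (k + c - 1)) (by
    rw [← pow_succ']
    congr 1
    omega) (α (J y) + (p : Λ) • α z) (rT ((p : Λ) ^ (c' - c - 1) • Y)) (β X)
  refine ⟨α (J y) + (p : Λ) • α z + β X + (p : Λ) • T, ?_, ?_⟩
  · rw [hρW, hA, hB, hD, hT]
  · intro hxn
    by_cases hyp : ∃ y', y = (p : Λ) • y'
    · obtain ⟨y', hy'⟩ := hyp
      have hxr' : x.r ∉ L (k + 1) := by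
        intro h
        apply hxn
        refine ⟨⟨y', ?_⟩, h⟩
        rw [hy, hy', smul_smul, pow_succ]
      have h1 : α (J y) + (p : Λ) • α z + β X + (p : Λ) • T =
          β X + (p : Λ) • (α (J y') + α z + T) := by
        rw [hy', map_smul, map_smul]
        module
      rw [h1]
      exact isUnit_add_smul hqN ((hXu hxr').map β)
    · have h1 : α (J y) + (p : Λ) • α z + β X + (p : Λ) • T =
          (α (J y) + β X) + (p : Λ) • (α z + T) := by
        module
      rw [h1]
      apply isUnit_add_smul hqN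
      apply isUnit_tensor
      intro χ hχ hχn
      exact hunit y hyp χ hχ hχn ((Module.finrank_pos_iff_of_free Λ _).mpr inferInstance)

end Pool.Agent.H51
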