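import Pool.Agent.H51.SD

set_option autoImplicit false

namespace Pool.Agent.H51

open Module

/-- Relative normal monomiality of a subgroup `K` of `G`. -/
def RNM {G : Type} [Group G] (K : Subgroup G) : Prop :=
  ∀ (W : Type) [AddCommGroup W] [Module ℂ W] [FiniteDimensional ℂ W] [Nontrivial W]
    (τ : K →* Module.End ℂ W),
    ∃ (S : Subgroup G) (hSK : S ≤ K) (hS : S.Normal) (σ : S →* ℂ) (w : W), w ≠ 0 ∧
      (∀ s : S, τ ⟨s, hSK s.2⟩ w = σ s • w) ∧
      (∀ g ∈ K, (∀ s : S, σ ⟨g * s * g⁻¹, hS.conj_mem s s.2 g⟩ = σ s) → g ∈ S)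

/-- A descending chain of normal subgroups from the whole group to the trivial group. -/
structure IsLev {G : Type} [Group G] (L : ℕ → Subgroup G) : Prop where
  zero : L 0 = ⊤
  anti : ∀ k, L (k + 1) ≤ L k
  normal : ∀ k, (L k).Normal
  fin : ∃ n, L n = ⊥

theorem IsLev.le {G : Type} [Group G] {L : ℕ → Subgroup G} (h : IsLev L) {i j : ℕ} (hij : i ≤ j) :
    L j ≤ L i :=
  antitone_nat_of_succ_le h.anti hij

/-- Elements of exact level `l` act as `1 + q^(l+c) X` with `X` invertible. -/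
def GoodAct {R V G : Type} [CommRing R] [AddCommGroup V] [Module R V] [Group G]
    (L : ℕ → Subgroup G) (q : R) (c : ℕ) (ρ : G →* Module.End R V) : Prop :=
  ∀ l, ∀ g ∈ L l, ∃ X : Module.End R V, ρ g = 1 + q ^ (l + c) • X ∧ (g ∉ L (l + 1) → IsUnit X)

section

variable {R V G : Type} [CommRing R] [AddCommGroup V] [Module R V] [Group G]

/-- The subgroup of the affine group with linear part in `S` and translation part divisible by
`q^k`. -/
def subSD (ρ : G →* Module.End R V) (q : R) (k : ℕ) (S : Subgroup G) : Subgroup (SD ρ) where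
  carrier := {x | (∃ y, x.l = q ^ k • y) ∧ x.r ∈ S}
  mul_mem' := by
    rintro a b ⟨⟨y, hy⟩, ha⟩ ⟨⟨z, hz⟩, hb⟩
    refine ⟨⟨y + ρ a.r z, ?_⟩, S.mul_mem ha hb⟩
    simp [hy, hz]
  one_mem' := ⟨⟨0, by simp⟩, S.one_mem⟩
  inv_mem' := by
    rintro a ⟨⟨y, hy⟩, ha⟩
    refine ⟨⟨-(ρ a.r⁻¹ y), ?_⟩, S.inv_mem ha⟩
    simp [hy]

theorem mem_subSD {ρ : G →* Module.End R V} {q : R} {k : ℕ} {S : Subgroup G} {x : SD ρ} :
    x ∈ subSD ρ q k S ↔ (∃ y, x.l = q ^ k • y) ∧ x.r ∈ S := Iff.rfl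

/-- The levels of the affine group. -/
def LSD (ρ : G →* Module.End R V) (L : ℕ → Subgroup G) (q : R) (k : ℕ) : Subgroup (SD ρ) :=
  subSD ρ q k (L k)

theorem subSD_normal {ρ : G →* Module.End R V} {L : ℕ → Subgroup G} {q : R} {c k : ℕ}
    (hg : GoodAct L q c ρ) {S : Subgroup G} (hS : S.Normal) (hSL : S ≤ L k) :
    (subSD ρ q k S).Normal := by
  constructor
  rintro b ⟨⟨y, hy⟩, hb⟩ a
  rw [mem_subSD, SD.conj_formula]
  have hc : a.r * b.r * a.r⁻¹ ∈ S := hS.conj_mem _ hb _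
  refine ⟨?_, hc⟩
  obtain ⟨X, hX, _⟩ := hg k _ (hSL hc)
  refine ⟨ρ a.r y - q ^ c • X a.l, ?_⟩
  simp only [hX, hy]
  simp only [map_smul, LinearMap.add_apply, Module.End.one_apply, LinearMap.smul_apply, smul_sub,
    smul_smul, ← pow_add]
  abel

theorem isLev_LSD {ρ : G →* Module.End R V} {L : ℕ → Subgroup G} {q : R} {c : ℕ}
    (hL : IsLev L) (hg : GoodAct L q c ρ) {N : ℕ} (hq : q ^ N = 0) : IsLev (LSD ρ L q) := by
  constructor
  · rw [eq_top_iff]
    intro x _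
    refine ⟨⟨x.l, by simp⟩, ?_⟩
    rw [hL.zero]; exact Subgroup.mem_top _
  · intro k x hx
    obtain ⟨⟨y, hy⟩, hx2⟩ := hx
    refine ⟨⟨q • y, ?_⟩, hL.anti k hx2⟩
    rw [hy, smul_smul, pow_succ]
  · intro k
    exact subSD_normal hg (hL.normal k) le_rfl
  · obtain ⟨n, hn⟩ := hL.fin
    refine ⟨max n N, ?_⟩
    rw [eq_bot_iff]
    rintro x ⟨⟨y, hy⟩, hx2⟩
    have h1 : x.r = 1 := by
      have := hL.le (le_max_left n N) hx2
      rw [hn] at this
      exact Subgroup.mem_bot.mp this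
    have h2 : q ^ (max n N) = 0 := pow_eq_zero_of_le (le_max_right _ _) hq
    rw [Subgroup.mem_bot]
    ext
    · rw [hy, h2]; simp
    · rw [h1]; simp

/-- Relative normal monomiality passes to the affine group. -/
theorem rnm_step {ρ : G →* Module.End R V} {L : ℕ → Subgroup G} {q : R} {c : ℕ}
    (hL : IsLev L) (hg : GoodAct L q c ρ) (hR : ∀ k, RNM (L k)) (k : ℕ) :
    RNM (LSD ρ L q k) := by
  classical
  intro W _ _ _ _ τ
  -- translations
  have heymem : ∀ y : V, (⟨q ^ k • y, 1⟩ : SD ρ) ∈ LSD ρ L q k := fun y => ⟨⟨y, rfl⟩, one_mem _⟩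
  let e : V → LSD ρ L q k := fun y => ⟨⟨q ^ k • y, 1⟩, heymem y⟩
  have he_add : ∀ y z, e (y + z) = e y * e z := by
    intro y z
    apply Subtype.ext
    ext
    · simp [e]
    · simp [e]
  let T : V → Module.End ℂ W := fun y => τ (e y)
  have hT_add : ∀ y z, T (y + z) = T y * T z := by
    intro y z
    simp only [T]
    rw [he_add, map_mul]
  obtain ⟨w₀, hw₀, hw₀e⟩ := exists_common_eigenvector T (by
    intro y z
    change T y * T z = T z * T y
    rw [← hT_add, ← hT_add, add_comm])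
  choose μ hμ using hw₀e
  have hμ_add : ∀ y z, μ (y + z) = μ y * μ z := by
    intro y z
    have h1 : μ (y + z) • w₀ = (μ y * μ z) • w₀ := by
      rw [← hμ, hT_add, Module.End.mul_apply, hμ, map_smul, hμ, smul_smul, mul_comm]
    exact smul_left_injective ℂ hw₀ h1
  have hμ_zero : μ 0 = 1 := by
    have h1 : μ 0 • w₀ = (1 : ℂ) • w₀ := by
      rw [← hμ]
      have : e 0 = 1 := by
        apply Subtype.ext
        ext <;> simp [e]
      simp only [T]
      rw [this, map_one]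
      simp
    exact smul_left_injective ℂ hw₀ h1
  have hμ_ne : ∀ y, μ y ≠ 0 := by
    intro y h
    have h1 := hμ_add y (-y)
    rw [h, zero_mul, add_neg_cancel, hμ_zero] at h1
    exact one_ne_zero h1
  have hμ_wd : ∀ y z, q ^ k • y = q ^ k • z → μ y = μ z := by
    intro y z h
    have h1 : e y = e z := by
      apply Subtype.ext
      ext
      · exact h
      · rfl
    have h2 : μ y • w₀ = μ z • w₀ := by
      rw [← hμ, ← hμ]
      simp only [T]
      rw [h1]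
    exact smul_left_injective ℂ hw₀ h2
  -- the stabiliser level
  have hex : ∃ l, k ≤ l ∧ ∀ g ∈ L l, ∀ y, μ (ρ g y) = μ y := by
    obtain ⟨n, hn⟩ := hL.fin
    refine ⟨max k n, le_max_left _ _, ?_⟩
    intro g hgg y
    have h1 := hL.le (le_max_right k n) hgg
    rw [hn, Subgroup.mem_bot] at h1
    rw [h1, map_one]
    rfl
  obtain ⟨l, ⟨hkl, hlfix⟩, hmin⟩ : ∃ l, (k ≤ l ∧ ∀ g ∈ L l, ∀ y, μ (ρ g y) = μ y) ∧
      ∀ j, (k ≤ j ∧ ∀ g ∈ L j, ∀ y, μ (ρ g y) = μ y) → l ≤ j :=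
    ⟨Nat.find hex, Nat.find_spec hex, fun j hj => Nat.find_min' hex hj⟩
  have hstabl : ∀ g ∈ L k, (∀ y, μ (ρ g y) = μ y) → g ∈ L l := by
    intro g hgk hgfix
    by_contra hgl
    -- exact level of g
    have hlev : ∃ j, k ≤ j ∧ j < l ∧ g ∈ L j ∧ g ∉ L (j + 1) := by
      by_contra hno
      push Not at hno
      have : ∀ d, k + d ≤ l → g ∈ L (k + d) := by
        intro d
        induction d with
        | zero => intro _; simpa using hgk
        | succ d ih =>
          intro hd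
          exact hno (k + d) (by omega) (by omega) (ih (by omega))
      have h2 := this (l - k) (by omega)
      rw [show k + (l - k) = l by omega] at h2
      exact hgl h2
    obtain ⟨j, hkj, hjl, hgj, hgj'⟩ := hlev
    obtain ⟨X, hX, hXu⟩ := hg j g hgj
    have hXunit := hXu hgj'
    have hPj : ∀ h ∈ L j, ∀ y, μ (ρ h y) = μ y := by
      intro h hh y
      obtain ⟨Y, hY, _⟩ := hg j h hh
      obtain ⟨u, hu⟩ := hXunit
      let z := (↑u⁻¹ : Module.End R V) (Y y)
      have hz : X z = Y y := by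
        have h3 : (X * (↑u⁻¹ : Module.End R V)) (Y y) = Y y := by
          rw [← hu, Units.mul_inv]; rfl
        exact h3
      have h1 : ρ h y + z = y + ρ g z := by
        rw [hY, hX]
        simp only [LinearMap.add_apply, Module.End.one_apply, LinearMap.smul_apply, hz]
        abel
      have h2 : μ (ρ h y) * μ z = μ y * μ z := by
        rw [← hμ_add, h1, hμ_add, hgfix]
      exact mul_right_cancel₀ (hμ_ne z) h2
    have := hmin j ⟨hkj, hPj⟩
    omega
  -- the isotypic part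
  let Wμ : Submodule ℂ W :=
    { carrier := {w | ∀ y, T y w = μ y • w}
      add_mem' := by
        intro a b ha hb y
        rw [map_add, ha y, hb y, smul_add]
      zero_mem' := by intro y; simp
      smul_mem' := by
        intro c x hx y
        rw [map_smul, hx y, smul_comm] }
  have hWμ : ∀ w, w ∈ Wμ ↔ ∀ y, T y w = μ y • w := fun w => Iff.rfl
  have hnt : Nontrivial Wμ := by
    rw [Submodule.nontrivial_iff_ne_bot]
    intro h
    have : w₀ ∈ Wμ := fun y => hμ y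
    rw [h, Submodule.mem_bot] at this
    exact hw₀ this
  have hfmem : ∀ g ∈ L k, (⟨0, g⟩ : SD ρ) ∈ LSD ρ L q k := fun g hgk => ⟨⟨0, by simp⟩, hgk⟩
  let f : L l → LSD ρ L q k := fun g => ⟨⟨0, g⟩, hfmem g (hL.le hkl g.2)⟩
  have hf_mul : ∀ g h, f (g * h) = f g * f h := by
    intro g h
    apply Subtype.ext
    ext <;> simp [f]
  have hf_one : f 1 = 1 := by
    apply Subtype.ext
    ext <;> simp [f]
  have hef : ∀ (y : V) (g : L l), e y * f g = f g * e (ρ (g : G)⁻¹ y) := by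
    intro y g
    apply Subtype.ext
    ext
    · simp only [e, f, Subgroup.coe_mul, SD.mul_l, map_zero, add_zero, zero_add, map_smul]
      rw [← SD.rho_mul, mul_inv_cancel, SD.rho_one]
    · simp [e, f]
  have hpres : ∀ (g : L l), ∀ w ∈ Wμ, τ (f g) w ∈ Wμ := by
    intro g w hw y
    have h1 : T y (τ (f g) w) = τ (f g) (T (ρ (g : G)⁻¹ y) w) := by
      simp only [T]
      rw [← Module.End.mul_apply, ← Module.End.mul_apply, ← map_mul, ← map_mul, hef]
    rw [h1, hw, map_smul, hlfix _ ((L l).inv_mem g.2)]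
  let τ' : L l →* Module.End ℂ Wμ :=
    { toFun := fun g => (τ (f g)).restrict (hpres g)
      map_one' := by
        ext w
        simp [hf_one]
      map_mul' := by
        intro g h
        ext w
        simp [hf_mul] }
  have hτ' : ∀ (g : L l) (w : Wμ), ((τ' g w : Wμ) : W) = τ (f g) w := fun _ _ => rfl
  obtain ⟨S, hSl, hSn, σ, w, hw, hweig, hstab⟩ := hR l Wμ τ'
  have hSk : S ≤ L k := hSl.trans (hL.le hkl)
  -- the function on translations
  let m : V → ℂ := fun a => if h : ∃ y, a = q ^ k • y then μ h.choose else 1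
  have hm : ∀ y, m (q ^ k • y) = μ y := by
    intro y
    have h : ∃ z, q ^ k • y = q ^ k • z := ⟨y, rfl⟩
    simp only [m]
    rw [dif_pos h]
    exact (hμ_wd _ _ h.choose_spec).symm
  let σ' : subSD ρ q k S →* ℂ :=
    { toFun := fun x => m x.1.l * σ ⟨x.1.r, x.2.2⟩
      map_one' := by
        have h1 : m (0 : V) = 1 := by
          have := hm 0
          rw [smul_zero, hμ_zero] at this
          exact this
        have h2 : (⟨(1 : SD ρ).r, (1 : subSD ρ q k S).2.2⟩ : S) = 1 := rfl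
        change m (0 : V) * σ ⟨(1 : SD ρ).r, (1 : subSD ρ q k S).2.2⟩ = 1
        rw [h1, h2, map_one, mul_one]
      map_mul' := by
        rintro ⟨x, ⟨y, hy⟩, hx⟩ ⟨x', ⟨y', hy'⟩, hx'⟩
        have h1 : (x * x').l = q ^ k • (y + ρ x.r y') := by simp [hy, hy']
        have h2 : (⟨(x * x').r, S.mul_mem hx hx'⟩ : S) = ⟨x.r, hx⟩ * ⟨x'.r, hx'⟩ := rfl
        change m (x * x').l * σ ⟨(x * x').r, S.mul_mem hx hx'⟩ =
          (m x.l * σ ⟨x.r, hx⟩) * (m x'.l * σ ⟨x'.r, hx'⟩)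
        rw [h1, h2, map_mul, hm, hy, hy', hm, hm, hμ_add, hlfix _ (hSl hx)]
        ring }
  have hσ' : ∀ (x : SD ρ) (hx : x ∈ subSD ρ q k S) (y : V) (s : S), x.l = q ^ k • y →
      x.r = s → σ' ⟨x, hx⟩ = μ y * σ s := by
    intro x hx y s hy hs
    have h1 : (⟨x.r, hx.2⟩ : S) = s := Subtype.ext hs
    change m x.l * σ ⟨x.r, hx.2⟩ = _
    rw [h1, hy, hm]
  have hnorm : (subSD ρ q k S).Normal := subSD_normal hg hSn hSk
  have hle : subSD ρ q k S ≤ LSD ρ L q k := fun x hx => ⟨hx.1, hSk hx.2⟩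
  refine ⟨subSD ρ q k S, hle, hnorm, σ', (w : W), ?_, ?_, ?_⟩
  · intro h
    exact hw (Subtype.ext h)
  · rintro ⟨x, hx⟩
    obtain ⟨y, hy⟩ := hx.1
    have h1 : (⟨x, hle hx⟩ : LSD ρ L q k) = e y * f ⟨x.r, hSl hx.2⟩ := by
      apply Subtype.ext
      ext
      · simp [e, f, hy]
      · simp [e, f]
    have h2 := hweig ⟨x.r, hx.2⟩
    have h3 : τ (f ⟨x.r, hSl hx.2⟩) (w : W) = σ ⟨x.r, hx.2⟩ • (w : W) := by
      rw [← hτ', h2]
      rfl
    have h4 : τ (e y) (w : W) = μ y • (w : W) := w.2 y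
    rw [hσ' x hx y ⟨x.r, hx.2⟩ hy rfl]
    simp only
    rw [h1, map_mul, Module.End.mul_apply, h3, map_smul, h4, smul_smul, mul_comm]
  · intro x hxL hx
    obtain ⟨y₀, hy₀⟩ := hxL.1
    have hxk := hxL.2
    have hxl : x.r ∈ L l := by
      apply hstabl _ hxk
      intro y
      have hmem : (⟨q ^ k • y, 1⟩ : SD ρ) ∈ subSD ρ q k S := ⟨⟨y, rfl⟩, one_mem _⟩
      have h1 := hx ⟨⟨q ^ k • y, 1⟩, hmem⟩
      have h2 : x * (⟨q ^ k • y, 1⟩ : SD ρ) * x⁻¹ = ⟨q ^ k • (ρ x.r y), 1⟩ := by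
        rw [SD.conj_formula]
        ext
        · simp
        · simp
      rw [hσ' _ hmem y 1 rfl rfl] at h1
      simp only at h1
      rw [hσ' _ _ (ρ x.r y) 1 (by rw [h2]) (by rw [h2]; rfl)] at h1
      rw [map_one, mul_one, mul_one] at h1
      exact h1
    refine ⟨⟨y₀, hy₀⟩, ?_⟩
    apply hstab _ hxl
    intro s
    have hmem : (⟨0, (s : G)⟩ : SD ρ) ∈ subSD ρ q k S := ⟨⟨0, by simp⟩, s.2⟩
    have h1 := hx ⟨⟨0, s⟩, hmem⟩
    have hs' : x.r * (s : G) * x.r⁻¹ ∈ S := hSn.conj_mem _ s.2 _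
    have h3 : (x * (⟨0, (s : G)⟩ : SD ρ) * x⁻¹).l =
        q ^ k • (y₀ - ρ (x.r * (s : G) * x.r⁻¹) y₀) := by
      rw [SD.conj_formula]
      simp [hy₀, smul_sub]
    have h3' : (x * (⟨0, (s : G)⟩ : SD ρ) * x⁻¹).r = (⟨x.r * (s : G) * x.r⁻¹, hs'⟩ : S) := by
      rw [SD.conj_formula]
    have h5 : μ (y₀ - ρ (x.r * (s : G) * x.r⁻¹) y₀) = 1 := by
      have h6 : μ (y₀ - ρ (x.r * (s : G) * x.r⁻¹) y₀) * μ (ρ (x.r * (s : G) * x.r⁻¹) y₀) =
          1 * μ (ρ (x.r * (s : G) * x.r⁻¹) y₀) := by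
        rw [← hμ_add, sub_add_cancel, one_mul, hlfix _ (hSl hs')]
      exact mul_right_cancel₀ (hμ_ne _) h6
    rw [hσ' _ hmem 0 s (by simp) rfl] at h1
    simp only at h1
    rw [hσ' _ _ _ _ h3 h3', h5, hμ_zero, one_mul, one_mul] at h1
    exact h1

end

end Pool.Agent.H51
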