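import Mathlib

set_option autoImplicit false

namespace Pool.Agent.H51

open Module

/-- Commuting operators on a nonzero finite dimensional complex space have a common eigenvector. -/
theorem exists_common_eigenvector {ι W : Type} [AddCommGroup W] [Module ℂ W]
    [FiniteDimensional ℂ W] [Nontrivial W] (T : ι → Module.End ℂ W)
    (hc : ∀ i j, Commute (T i) (T j)) : ∃ w : W, w ≠ 0 ∧ ∀ i, ∃ c : ℂ, T i w = c • w := by
  have key : ∀ n : ℕ, ∀ U : Submodule ℂ W, finrank ℂ U = n → U ≠ ⊥ →
      (∀ i, ∀ u ∈ U, T i u ∈ U) → ∃ w ∈ U, w ≠ 0 ∧ ∀ i, ∃ c : ℂ, T i w = c • w := by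
    intro n
    induction n using Nat.strong_induction_on with
    | _ n ih =>
      intro U hn hU hinv
      by_cases hall : ∀ i, ∃ c : ℂ, ∀ u ∈ U, T i u = c • u
      · obtain ⟨w, hw, hw0⟩ := Submodule.exists_mem_ne_zero_of_ne_bot hU
        refine ⟨w, hw, hw0, fun i => ?_⟩
        obtain ⟨c, hc⟩ := hall i
        exact ⟨c, hc w hw⟩
      · push_neg at hall
        obtain ⟨i, hi⟩ := hall
        have hnt : Nontrivial U := Submodule.nontrivial_iff_ne_bot.mpr hU
        obtain ⟨c, hcc⟩ := Module.End.exists_eigenvalue ((T i).restrict (hinv i))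
        obtain ⟨x, hx⟩ := hcc.exists_hasEigenvector
        let U' : Submodule ℂ W := U ⊓ LinearMap.ker (T i - c • (1 : Module.End ℂ W))
        have hmem : ∀ u, u ∈ U' ↔ u ∈ U ∧ T i u = c • u := by
          intro u
          simp only [U', Submodule.mem_inf, LinearMap.mem_ker, LinearMap.sub_apply,
            LinearMap.smul_apply, Module.End.one_apply, sub_eq_zero]
        have hlt : U' < U := by
          refine lt_of_le_of_ne inf_le_left ?_
          intro he
          obtain ⟨u, hu, hu2⟩ := hi c
          rw [← he, hmem] at hu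
          exact hu2 hu.2
        have hne : U' ≠ ⊥ := by
          intro h
          have hx1 : (x : W) ∈ U' := by
            rw [hmem]
            refine ⟨x.2, ?_⟩
            have := hx.apply_eq_smul
            exact congrArg Subtype.val this
          rw [h, Submodule.mem_bot] at hx1
          exact hx.2 (Subtype.ext hx1)
        have hfin : finrank ℂ U' < n := by
          rw [← hn]
          exact Submodule.finrank_lt_finrank_of_lt hlt
        have hinv' : ∀ j, ∀ u ∈ U', T j u ∈ U' := by
          intro j u hu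
          rw [hmem] at hu ⊢
          refine ⟨hinv j u hu.1, ?_⟩
          have h1 : T i (T j u) = T j (T i u) := by
            have := congrArg (fun f : Module.End ℂ W => f u) (hc i j)
            exact this
          rw [h1, hu.2, map_smul]
        obtain ⟨w, hw, hw2⟩ := ih _ hfin U' rfl hne hinv'
        exact ⟨w, ((hmem w).mp hw).1, hw2⟩
  obtain ⟨w, _, hw⟩ := key _ ⊤ rfl (by
    intro h
    exact (bot_ne_top (α := Submodule ℂ W)) h.symm) (fun _ _ _ => Submodule.mem_top)
  exact ⟨w, hw⟩

/-- The affine group of a linear representation. -/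
@[ext]
structure SD {R V G : Type} [CommRing R] [AddCommGroup V] [Module R V] [Group G]
    (ρ : G →* Module.End R V) where
  l : V
  r : G

namespace SD

variable {R V G : Type} [CommRing R] [AddCommGroup V] [Module R V] [Group G]
  {ρ : G →* Module.End R V}

theorem rho_mul (g h : G) (v : V) : ρ (g * h) v = ρ g (ρ h v) := by
  rw [map_mul]; rfl

theorem rho_one (v : V) : ρ 1 v = v := by
  rw [map_one]; rfl

instance : Mul (SD ρ) := ⟨fun a b => ⟨a.l + ρ a.r b.l, a.r * b.r⟩⟩
instance : One (SD ρ) := ⟨⟨0, 1⟩⟩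
instance : Inv (SD ρ) := ⟨fun a => ⟨-(ρ a.r⁻¹ a.l), a.r⁻¹⟩⟩

@[simp] theorem mul_l (a b : SD ρ) : (a * b).l = a.l + ρ a.r b.l := rfl
@[simp] theorem mul_r (a b : SD ρ) : (a * b).r = a.r * b.r := rfl
@[simp] theorem one_l : (1 : SD ρ).l = 0 := rfl
@[simp] theorem one_r : (1 : SD ρ).r = 1 := rfl
@[simp] theorem inv_l (a : SD ρ) : (a⁻¹).l = -(ρ a.r⁻¹ a.l) := rfl
@[simp] theorem inv_r (a : SD ρ) : (a⁻¹).r = a.r⁻¹ := rfl

instance : Group (SD ρ) :=
  Group.ofLeftAxioms
    (by
      intro a b c
      ext
      · simp [rho_mul, add_assoc]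
      · simp [mul_assoc])
    (by
      intro a
      ext
      · simp
      · simp)
    (by
      intro a
      ext
      · simp
      · simp)

/-- Equivalence of the underlying type with a product. -/
def equivProd : SD ρ ≃ V × G where
  toFun a := (a.l, a.r)
  invFun a := ⟨a.1, a.2⟩
  left_inv _ := rfl
  right_inv _ := rfl

instance [Finite V] [Finite G] : Finite (SD ρ) := Finite.of_equiv _ (equivProd (ρ := ρ)).symm

/-- Right embedding. -/
def inr : G →* SD ρ where
  toFun g := ⟨0, g⟩
  map_one' := rfl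
  map_mul' g h := by ext <;> simp

@[simp] theorem inr_l (g : G) : (inr g : SD ρ).l = 0 := rfl
@[simp] theorem inr_r (g : G) : (inr g : SD ρ).r = g := rfl

theorem conj_formula (a b : SD ρ) : a * b * a⁻¹ =
    ⟨a.l + ρ a.r b.l - ρ (a.r * b.r * a.r⁻¹) a.l, a.r * b.r * a.r⁻¹⟩ := by
  ext
  · simp [rho_mul, sub_eq_add_neg]
  · simp

end SD

end Pool.Agent.H51
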