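import Pool.Agent.H51.BigRing
import Pool.Agent.H51.RNM

set_option autoImplicit false

namespace Pool.Agent.H51

open Module

/-- The group of exponents. -/
abbrev Cg (K r : ℕ) : Type := Fin r → Multiplicative (ZMod K)

/-- The generators. -/
def ug {K r : ℕ} (i : Fin r) : Cg K r := Pi.mulSingle i (Multiplicative.ofAdd 1)

theorem algHom_ext_gen {O B : Type} [CommRing O] [CommRing B] [Algebra O B] {K r : ℕ} [NeZero K]
    (φ ψ : MonoidAlgebra O (Cg K r) →ₐ[O] B)
    (h : ∀ i, φ (MonoidAlgebra.single (ug i) 1) = ψ (MonoidAlgebra.single (ug i) 1)) : φ = ψ := by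
  refine MonoidAlgebra.algHom_ext' ?_ (by ext)
  apply MonoidHom.functions_ext
  intro i x
  have hx : x = (Multiplicative.ofAdd (1 : ZMod K)) ^ (Multiplicative.toAdd x).val := by
    rw [← ofAdd_nsmul, nsmul_eq_mul, mul_one, ZMod.natCast_zmod_val]
    rfl
  have h1 : (Pi.mulSingle i x : Cg K r) = (ug i) ^ (Multiplicative.toAdd x).val := by
    rw [ug, ← Pi.mulSingle_pow, ← hx]
  rw [h1, map_pow, map_pow]
  congr 1
  exact h i

theorem pow_val_add {B : Type} [CommRing B] {K : ℕ} [NeZero K] (w : B) (hw : w ^ K = 1)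
    (a b : ZMod K) : w ^ (a + b).val = w ^ a.val * w ^ b.val := by
  rw [ZMod.val_add, ← pow_add]
  exact (pow_eq_pow_mod _ hw).symm

/-- The homomorphism determined by the images of the generators. -/
def genHom {B : Type} [CommRing B] {K r : ℕ} [NeZero K] (w : Fin r → B)
    (hw : ∀ i, w i ^ K = 1) : Cg K r →* B where
  toFun c := ∏ i, w i ^ (Multiplicative.toAdd (c i)).val
  map_one' := by
    simp
  map_mul' := by
    intro a b
    rw [← Finset.prod_mul_distrib]
    apply Finset.prod_congr rfl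
    intro i _
    rw [Pi.mul_apply, toAdd_mul]
    exact pow_val_add _ (hw i) _ _

theorem genHom_ug {B : Type} [CommRing B] {K r : ℕ} [NeZero K] (hK : 1 < K) (w : Fin r → B)
    (hw : ∀ i, w i ^ K = 1) (i : Fin r) : genHom w hw (ug i) = w i := by
  have : Fact (1 < K) := ⟨hK⟩
  change ∏ j, w j ^ (Multiplicative.toAdd ((ug i : Cg K r) j)).val = w i
  rw [Finset.prod_eq_single i]
  · simp [ug, ZMod.val_one]
  · intro j _ hj
    simp [ug, Pi.mulSingle_eq_of_ne hj]
  · intro h
    exact absurd (Finset.mem_univ i) h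

/-- The augmentation. -/
noncomputable def aug (O : Type) [CommRing O] (K r : ℕ) : MonoidAlgebra O (Cg K r) →ₐ[O] O :=
  MonoidAlgebra.lift O O (Cg K r) 1

theorem aug_single {O : Type} [CommRing O] {K r : ℕ} (c : Cg K r) (a : O) :
    aug O K r (MonoidAlgebra.single c a) = a := by
  rw [aug, MonoidAlgebra.lift_single]
  simp

theorem cg_pow {K r : ℕ} [NeZero K] (c : Cg K r) : c ^ K = 1 := by
  funext i
  rw [Pi.pow_apply, Pi.one_apply]
  apply Multiplicative.toAdd.injective
  rw [toAdd_pow, toAdd_one, nsmul_eq_mul, ZMod.natCast_self, zero_mul]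

theorem pow_aug (p : ℕ) [hp : Fact p.Prime] (M : ℕ) {O : Type} [CommRing O] {r : ℕ}
    (s : MonoidAlgebra O (Cg (p ^ M) r)) : ∃ z : MonoidAlgebra O (Cg (p ^ M) r),
      s ^ p ^ M = algebraMap O _ (aug O (p ^ M) r s ^ p ^ M) + (p : MonoidAlgebra O (Cg (p ^ M) r)) * z := by
  have hne : NeZero (p ^ M) := ⟨pow_ne_zero _ hp.out.ne_zero⟩
  induction s using MonoidAlgebra.induction_linear with
  | zero =>
    refine ⟨0, ?_⟩
    rw [map_zero, zero_pow (NeZero.ne _), zero_pow (NeZero.ne _), map_zero, mul_zero, add_zero]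
  | add s s' hs hs' =>
    obtain ⟨z, hz⟩ := hs
    obtain ⟨z', hz'⟩ := hs'
    obtain ⟨y, hy⟩ := exists_add_pow_prime_pow_eq hp.out s s' M
    obtain ⟨y', hy'⟩ := exists_add_pow_prime_pow_eq hp.out (aug O (p ^ M) r s)
      (aug O (p ^ M) r s') M
    refine ⟨z + z' + s * s' * y - algebraMap O _ (aug O (p ^ M) r s * aug O (p ^ M) r s' * y'), ?_⟩
    rw [hy, hz, hz', map_add, hy', map_add, map_add]
    simp only [map_mul, map_natCast]
    ring
  | single c a =>
    refine ⟨0, ?_⟩
    rw [aug_single, MonoidAlgebra.single_pow, cg_pow, mul_zero, add_zero]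
    rfl

theorem isUnit_of_aug (p : ℕ) [hp : Fact p.Prime] (N M : ℕ) {O : Type} [CommRing O]
    [Algebra (ZMod (p ^ N)) O] {r : ℕ}
    (s : MonoidAlgebra O (Cg (p ^ M) r)) (h : IsUnit (aug O (p ^ M) r s)) : IsUnit s := by
  obtain ⟨z, hz⟩ := pow_aug p M s
  have h1 : (p : MonoidAlgebra O (Cg (p ^ M) r)) * z = (p : ZMod (p ^ N)) • z := by
    rw [Algebra.smul_def, map_natCast]
  have h2 : IsUnit (s ^ p ^ M) := by
    rw [hz, h1]
    apply isUnit_add_smul (natCast_pow_eq_zero p N)
    exact (h.pow _).map _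
  exact (isUnit_pow_iff (pow_ne_zero _ hp.out.ne_zero)).mp h2

end Pool.Agent.H51
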