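import Pool.Agent.H51.SRing

set_option autoImplicit false

namespace Pool.Agent.H51

open Module Polynomial

theorem exists_sym_ring (p : ℕ) [hp : Fact p.Prime] (N : ℕ) (hN : 1 ≤ N) {G V' : Type} [Group G]
    [AddCommGroup V'] [Module (ZMod (p ^ N)) V'] [Module.Free (ZMod (p ^ N)) V']
    [Module.Finite (ZMod (p ^ N)) V'] (L : ℕ → Subgroup G) (hL0 : L 0 = ⊤) (c' : ℕ) (hc' : 1 ≤ c')
    (ρ' : G →* Module.End (ZMod (p ^ N)) V') (hg : GoodAct L (p : ZMod (p ^ N)) c' ρ') (n : ℕ) :
    ∃ (S : Type) (_ : CommRing S) (_ : Algebra (ZMod (p ^ N)) S),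
      Module.Free (ZMod (p ^ N)) S ∧ Module.Finite (ZMod (p ^ N)) S ∧ Nontrivial S ∧
      ∃ (J : V' →ₗ[ZMod (p ^ N)] S) (θ : G →* (S →ₐ[ZMod (p ^ N)] S)),
        (∀ g x, θ g (J x) = J (ρ' g x)) ∧
        (∀ l, ∀ g ∈ L l, ∀ s, ∃ y, θ g s = s + (p : ZMod (p ^ N)) ^ (l + c') • y) ∧
        (∀ x, (¬ ∃ y, x = (p : ZMod (p ^ N)) • y) → ∀ χ : (ZMod (p ^ N))[X], χ.Monic →
          χ.natDegree = n → 1 ≤ n → IsUnit (aeval (J x) χ)) := by
  classical
  have hne : NeZero (p ^ N) := ⟨pow_ne_zero _ hp.out.ne_zero⟩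
  have hK : 1 < p ^ N := Nat.one_lt_pow (by omega) hp.out.one_lt
  have hntΛ : Nontrivial (ZMod (p ^ N)) := by
    have : Fact (1 < p ^ N) := ⟨hK⟩
    infer_instance
  set Λ := ZMod (p ^ N) with hΛ
  let r := finrank Λ V'
  obtain ⟨O, _, _, F, _, _, ε, t, hOfree, hOfin, hOunit, hObig⟩ :=
    exists_big_ring p N hN (n * r + 2)
  have hεt : ε t ≠ 0 := by
    have := hObig X X_ne_zero (by rw [natDegree_X]; omega)
    rwa [aeval_X] at this
  obtain ⟨tu, htu⟩ := hOunit t hεt
  have hOnt : Nontrivial O := ε.domain_nontrivial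
  let b : Basis (Fin r) Λ V' := Module.finBasis Λ V'
  let γ : Fin r → Oˣ := fun i => tu ^ ((i : ℕ) + 1)
  let S := MonoidAlgebra O (Cg (p ^ N) r)
  let J : V' →ₗ[Λ] S := b.constr Λ (fun i => MonoidAlgebra.single (ug i) (γ i : O))
  have hJb : ∀ i, J (b i) = MonoidAlgebra.single (ug i) (γ i : O) := by
    intro i
    simp only [J, Basis.constr_basis]
  let gen : Fin r → S := fun i => MonoidAlgebra.single (ug i) 1
  have hγgen : ∀ i, (γ i : O) • gen i = J (b i) := by
    intro i
    rw [hJb, MonoidAlgebra.smul_single, smul_eq_mul, mul_one]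
  have hgenγ : ∀ i, (↑(γ i)⁻¹ : O) • J (b i) = gen i := by
    intro i
    rw [← hγgen, smul_smul, Units.inv_mul, one_smul]
  let w : G → Fin r → S := fun g i => (↑(γ i)⁻¹ : O) • J (ρ' g (b i))
  have hwlev : ∀ l, ∀ g ∈ L l, ∀ i, ∃ y, w g i = gen i + (p : Λ) ^ (l + c') • y := by
    intro l g hgl i
    obtain ⟨X, hX, _⟩ := hg l g hgl
    refine ⟨(↑(γ i)⁻¹ : O) • J (X (b i)), ?_⟩
    simp only [w]
    rw [hX, LinearMap.add_apply, Module.End.one_apply, LinearMap.smul_apply, map_add, map_smul,
      smul_add, hgenγ, smul_comm]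
  have hpS : (p : S) ^ (N + 1) = 0 := by
    have h1 : (p : S) = algebraMap Λ S (p : Λ) := by rw [map_natCast]
    rw [h1, ← map_pow, pow_succ, natCast_pow_eq_zero, zero_mul, map_zero]
  have hgenpow : ∀ i, gen i ^ p ^ N = 1 := by
    intro i
    simp only [gen]
    rw [MonoidAlgebra.single_pow, cg_pow, one_pow]
    rfl
  have hw : ∀ g i, w g i ^ p ^ N = 1 := by
    intro g i
    obtain ⟨y, hy⟩ := hwlev 0 g (by rw [hL0]; exact Subgroup.mem_top _) i
    have h1 : (p : S) ∣ w g i - gen i := by
      rw [hy, add_sub_cancel_left]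
      refine ⟨(p : Λ) ^ (c' - 1) • y, ?_⟩
      have h2 : (p : S) = algebraMap Λ S (p : Λ) := by rw [map_natCast]
      rw [h2, ← Algebra.smul_def, smul_smul, ← pow_succ']
      congr 2
      omega
    have h2 := dvd_sub_pow_of_dvd_sub h1 N
    rw [hpS, zero_dvd_iff, sub_eq_zero, hgenpow] at h2
    exact h2
  let Θ : G → (S →ₐ[O] S) := fun g => MonoidAlgebra.lift O S (Cg (p ^ N) r) (genHom (w g) (hw g))
  have hΘgen : ∀ g i, Θ g (gen i) = w g i := by
    intro g i
    simp only [Θ, gen]
    rw [MonoidAlgebra.lift_single, genHom_ug hK, one_smul]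
  have hΘJ : ∀ g x, Θ g (J x) = J (ρ' g x) := by
    intro g
    have h1 : ((Θ g).restrictScalars Λ).toLinearMap ∘ₗ J = J ∘ₗ (ρ' g) := by
      apply b.ext
      intro i
      change Θ g (J (b i)) = J (ρ' g (b i))
      rw [← hγgen, map_smul, hΘgen]
      simp only [w]
      rw [smul_smul, Units.mul_inv, one_smul]
    intro x
    exact LinearMap.congr_fun h1 x
  have hΘone : Θ 1 = AlgHom.id O S := by
    apply algHom_ext_gen
    intro i
    change Θ 1 (gen i) = gen i
    rw [hΘgen]
    simp only [w]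
    rw [map_one, Module.End.one_apply, hgenγ]
  have hΘmul : ∀ g h, Θ (g * h) = (Θ g).comp (Θ h) := by
    intro g h
    apply algHom_ext_gen
    intro i
    change Θ (g * h) (gen i) = Θ g (Θ h (gen i))
    rw [hΘgen, hΘgen]
    simp only [w]
    rw [map_smul, hΘJ, map_mul, Module.End.mul_apply]
  let θ : G →* (S →ₐ[Λ] S) :=
    { toFun := fun g => (Θ g).restrictScalars Λ
      map_one' := by
        rw [hΘone]; rfl
      map_mul' := by
        intro g h
        rw [hΘmul]; rfl }
  refine ⟨S, inferInstance, inferInstance, inferInstance, inferInstance, inferInstance, J, θ,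
    hΘJ, ?_, ?_⟩
  · intro l g hgl s
    let I0 : Ideal S := Ideal.span {(p : S) ^ (l + c')}
    have h1 : (Ideal.Quotient.mkₐ O I0).comp (Θ g) = Ideal.Quotient.mkₐ O I0 := by
      apply algHom_ext_gen
      intro i
      change Ideal.Quotient.mk I0 (Θ g (gen i)) = Ideal.Quotient.mk I0 (gen i)
      rw [hΘgen, Ideal.Quotient.eq]
      obtain ⟨y, hy⟩ := hwlev l g hgl i
      rw [hy, add_sub_cancel_left, Ideal.mem_span_singleton]
      refine ⟨y, ?_⟩
      rw [Algebra.smul_def, map_pow, map_natCast]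
    have h2 : Ideal.Quotient.mk I0 (Θ g s) = Ideal.Quotient.mk I0 s :=
      DFunLike.congr_fun h1 s
    rw [Ideal.Quotient.eq, Ideal.mem_span_singleton] at h2
    obtain ⟨y, hy⟩ := h2
    refine ⟨y, ?_⟩
    change Θ g s = _
    rw [Algebra.smul_def, map_pow, map_natCast, ← hy]
    ring
  · intro x hx χ hχ hχn hn
    apply isUnit_of_aug p N N
    let φ : Λ →+* ZMod p := ZMod.castHom (dvd_pow_self p (by omega : N ≠ 0)) (ZMod p)
    have haug : aug O (p ^ N) r (J x) = ∑ i, b.repr x i • (γ i : O) := by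
      have h1 : ((aug O (p ^ N) r).restrictScalars Λ).toLinearMap ∘ₗ J =
          b.constr Λ (fun i => (γ i : O)) := by
        apply b.ext
        intro i
        rw [Basis.constr_basis]
        change aug O (p ^ N) r (J (b i)) = _
        rw [hJb, aug_single]
      have h2 := LinearMap.congr_fun h1 x
      rw [Basis.constr_apply_fintype] at h2
      exact h2
    have haugχ : aug O (p ^ N) r (aeval (J x) χ) = aeval (aug O (p ^ N) r (J x)) χ := by
      exact (aeval_algHom_apply ((aug O (p ^ N) r).restrictScalars Λ) (J x) χ).symm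
    rw [haugχ, haug]
    apply hOunit
    have hcomp : ε.comp (algebraMap Λ O) = (algebraMap (ZMod p) F).comp φ := Subsingleton.elim _ _
    let P : (ZMod p)[X] := ∑ i : Fin r, C (φ (b.repr x i)) * X ^ ((i : ℕ) + 1)
    have hεa : ε (∑ i, b.repr x i • (γ i : O)) = aeval (ε t) P := by
      simp only [P, map_sum, map_mul, aeval_C, map_pow, aeval_X]
      apply Finset.sum_congr rfl
      intro i _
      rw [Algebra.smul_def, map_mul]
      have h1 : ε (algebraMap Λ O (b.repr x i)) = algebraMap (ZMod p) F (φ (b.repr x i)) :=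
        RingHom.congr_fun hcomp _
      rw [h1]
      congr 1
      simp only [γ]
      rw [Units.val_pow_eq_pow_val, map_pow, htu]
    have hεχ : ε (aeval (∑ i, b.repr x i • (γ i : O)) χ) = aeval (ε t) ((χ.map φ).comp P) := by
      rw [aeval_comp, ← hεa, aeval_def, hom_eval₂, hcomp, aeval_def, eval₂_map]
    rw [hεχ]
    -- some coordinate is nonzero modulo p
    have hex : ∃ i, φ (b.repr x i) ≠ 0 := by
      by_contra hno
      push Not at hno
      apply hx
      have h1 : ∀ i, ∃ y, b.repr x i = (p : Λ) * y := fun i =>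
        dvd_of_castHom_eq_zero p N hN _ (hno i)
      choose y hy using h1
      refine ⟨∑ i, y i • b i, ?_⟩
      conv_lhs => rw [← b.sum_repr x]
      rw [Finset.smul_sum]
      apply Finset.sum_congr rfl
      intro i _
      rw [smul_smul, ← hy]
    have hPle : P.natDegree ≤ r := by
      apply natDegree_sum_le_of_forall_le
      intro i _
      refine (natDegree_C_mul_X_pow_le _ _).trans ?_
      exact i.2
    have hPge : 1 ≤ P.natDegree := by
      obtain ⟨i, hi⟩ := hex
      have h1 : P.coeff ((i : ℕ) + 1) = φ (b.repr x i) := by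
        simp only [P, finsetSum_coeff, coeff_C_mul, coeff_X_pow]
        rw [Finset.sum_eq_single i]
        · simp
        · intro j _ hj
          have : ¬ ((i : ℕ) + 1 = (j : ℕ) + 1) := by
            intro h
            apply hj
            ext
            omega
          rw [if_neg this, mul_zero]
        · intro h
          exact absurd (Finset.mem_univ i) h
      have h2 := le_natDegree_of_ne_zero (p := P) (n := (i : ℕ) + 1) (by rw [h1]; exact hi)
      omega
    have hQdeg : ((χ.map φ).comp P).natDegree = n * P.natDegree := by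
      rw [natDegree_comp, hχ.natDegree_map, hχn]
    apply hObig
    · intro h0
      rw [h0, natDegree_zero] at hQdeg
      have : 0 < n * P.natDegree := Nat.mul_pos (by omega) (by omega)
      omega
    · rw [hQdeg]
      have := Nat.mul_le_mul_left n hPle
      omega

end Pool.Agent.H51
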